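import Mathlib
import Pool.Agent.H59R2.DistC

set_option autoImplicit false

/-!
# MP_b4a71d_al: distributive varieties of Lie algebras that need identities of high degree

All definitions are in `Pool/Agent/H59R2/DistDefs.lean`.  The example is the variety generated by the
`(n + 2)`-dimensional filiform Lie algebra `F ⋉ F[X]/(X ^ (n + 1))`.
-/

namespace Pool.Agent.Results.MP_b4a71d_al.HighDegree

open Pool.Agent.H59R2.Dist

universe u

/-- **Theorem.** For every field `F` of characteristic `0` and every `n` there is a variety of Lie
algebras over `F` whose lattice of subvarieties is distributive and which is not defined by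
identities of degree at most `n`. (Q1 is the case `n = 6`.) -/
theorem result (F : Type u) [Field F] [CharZero F] (n : ℕ) :
    ∃ V : LieClass F, IsVariety F V ∧ IsDistributive F V ∧ ¬ DefinedInDegree F n V := by
  refine ⟨VFil F (n + 1), isVariety_VFil _, distributive (by omega), ?_⟩
  rintro ⟨S, hS, h⟩
  refine not_defined (F := F) (c := n + 1) (by omega) ⟨S, fun f hf => ?_, h⟩
  refine Submodule.span_mono ?_ (hS f hf)
  rintro w ⟨m, hm, hw⟩
  exact ⟨m, by omega, hw⟩

end Pool.Agent.Results.MP_b4a71d_al.HighDegree
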